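import Mathlib

/-!
# Grothendieck spaces: definitions

`Grothendieck X`: every subspace of `C_p(X)` is a g-space. Martin's Axiom for `ℵ₁` dense sets.
-/

set_option autoImplicit false

open Cardinal Ordinal

namespace Pool.Agent.Helper49.Gr

/-- `X` is Grothendieck: in every subspace `S` of `C_p(X)` (a set of continuous functions with the
topology of pointwise convergence, i.e. a subspace of the product `X → ℝ`), every set `A` which is
countably compact in `S` (every infinite subset of `A` has an accumulation point in `S`) has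
compact closure in `S`. -/
def Grothendieck (X : Type) [TopologicalSpace X] : Prop :=
  ∀ S A : Set (X → ℝ), S ⊆ {f : X → ℝ | Continuous f} → A ⊆ S →
    (∀ B ⊆ A, B.Infinite → ∃ y ∈ S, AccPt y (Filter.principal B)) →
    IsCompact (closure A ∩ S)

/-- `X` is a `k`-space. -/
def KSpace (X : Type) [TopologicalSpace X] : Prop :=
  ∀ s : Set X, (∀ K : Set X, IsCompact K → IsClosed (s ∩ K)) → IsClosed s

/-- `X` has countable tightness. -/
def CountablyTight (X : Type) [TopologicalSpace X] : Prop :=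
  ∀ (s : Set X) (x : X), x ∈ closure s → ∃ t ⊆ s, t.Countable ∧ x ∈ closure t

/-- All finite powers of `X` are Lindelöf: `l*(X) = ω`. -/
def LindelofPowers (X : Type) [TopologicalSpace X] : Prop :=
  ∀ n : ℕ, LindelofSpace (Fin n → X)

/-- The countable chain condition: every set of pairwise incompatible elements is countable. -/
def CCC (P : Type) [Preorder P] : Prop :=
  ∀ A : Set P, (∀ p ∈ A, ∀ q ∈ A, p ≠ q → ¬ ∃ r, r ≤ p ∧ r ≤ q) → A.Countable

/-- Martin's Axiom for `ℵ₁` dense sets, `MA_{ℵ₁}`. -/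
def MartinAxiomAlephOne : Prop :=
  ∀ (P : Type) [Preorder P] [Nonempty P], CCC P →
    ∀ (ι : Type) (D : ι → Set P), #ι ≤ ℵ₁ → (∀ i p, ∃ q ∈ D i, q ≤ p) →
      ∃ G : Set P, G.Nonempty ∧ (∀ p ∈ G, ∀ q, p ≤ q → q ∈ G) ∧
        (∀ p ∈ G, ∀ q ∈ G, ∃ r ∈ G, r ≤ p ∧ r ≤ q) ∧ ∀ i, (G ∩ D i).Nonempty

end Pool.Agent.Helper49.Gr
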