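import Mathlib
import Pool.Agent.Helper49.Gr.Defs

/-!
# Combinatorics on `ω₁` and Martin's Axiom
-/

set_option autoImplicit false

open Cardinal Ordinal Set

namespace Pool.Agent.Helper49.Gr

/-- The index type. -/
abbrev W : Type := (ℵ₁ : Cardinal.{0}).ord.ToType

lemma countable_Iio (a : W) : (Set.Iio a).Countable := by
  rw [← Cardinal.le_aleph0_iff_set_countable, ← Order.lt_succ_iff, Cardinal.succ_aleph0]
  have h := Cardinal.mk_Iio_lt a (by rw [Cardinal.mk_ord_toType]; exact (Ordinal.type_toType _).symm)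
  rwa [Cardinal.mk_ord_toType] at h

lemma countable_Iic (a : W) : (Set.Iic a).Countable := by
  rw [← Set.Iio_union_right]
  exact (countable_Iio a).union (Set.countable_singleton a)

lemma mk_W : #W = ℵ₁ := Cardinal.mk_ord_toType _

instance : Uncountable W := by
  rw [← Cardinal.aleph0_lt_mk_iff, mk_W]
  exact Cardinal.aleph0_lt_aleph_one

lemma not_countable_univ_W : ¬ (Set.univ : Set W).Countable := by
  intro h
  have := Set.countable_univ_iff.mp h
  exact not_countable (α := W) this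

/-- A countable subset of `W` is bounded. -/
lemma exists_bound {S : Set W} (hS : S.Countable) : ∃ b, ∀ s ∈ S, s < b := by
  have h1 : (⋃ s ∈ S, Set.Iic s).Countable := hS.biUnion fun s _ => countable_Iic s
  have h2 : (⋃ s ∈ S, Set.Iic s) ≠ Set.univ := fun h => not_countable_univ_W (h ▸ h1)
  obtain ⟨b, hb⟩ := (Set.ne_univ_iff_exists_notMem _).mp h2
  refine ⟨b, fun s hs => ?_⟩
  by_contra hcon
  exact hb (Set.mem_biUnion hs (not_lt.mp hcon))

lemma exists_gt_of_uncountable {S : Set W} (hS : ¬ S.Countable) (b : W) : ∃ s ∈ S, b < s := by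
  by_contra hcon
  push Not at hcon
  exact hS ((countable_Iic b).mono fun s hs => hcon s hs)

lemma uncountable_of_unbounded {S : Set W} (h : ∀ a, ∃ b ∈ S, a < b) : ¬ S.Countable := by
  intro hS
  obtain ⟨b, hb⟩ := exists_bound hS
  obtain ⟨c, hc, hbc⟩ := h b
  exact lt_asymm hbc (hb c hc)

/-- Recursive choice along `W`. -/
lemma exists_rec {β : Type*} (P : (a : W) → ((c : W) → c < a → β) → β → Prop)
    (h : ∀ a f, ∃ b, P a f b) : ∃ g : W → β, ∀ a, P a (fun c _ => g c) (g a) := by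
  choose F hF using h
  refine ⟨WellFounded.fix (r := (· < ·)) wellFounded_lt F, fun a => ?_⟩
  have := hF a (fun c _ => WellFounded.fix (r := (· < ·)) wellFounded_lt F c)
  rw [WellFounded.fix_eq (r := (· < ·)) wellFounded_lt F a]
  exact this

/-- An uncountable subset on which `α` is slow. -/
lemma exists_sparse {S₀ : Set W} (hS₀ : ¬ S₀.Countable) (α : W → W) :
    ∃ S ⊆ S₀, ¬ S.Countable ∧ ∀ x ∈ S, ∀ y ∈ S, x < y → α x < y := by
  let C : Set (Set W) := {S | S ⊆ S₀ ∧ ∀ x ∈ S, ∀ y ∈ S, x < y → α x < y}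
  obtain ⟨S, hS⟩ : ∃ S, Maximal (fun S => S ∈ C) S := by
    apply zorn_subset
    intro c hc hchain
    refine ⟨⋃₀ c, ⟨Set.sUnion_subset fun s hs => (hc hs).1, ?_⟩, fun s hs =>
      Set.subset_sUnion_of_mem hs⟩
    rintro x ⟨s, hs, hxs⟩ y ⟨t, ht, hyt⟩ hxy
    rcases hchain.total hs ht with h | h
    · exact (hc ht).2 x (h hxs) y hyt hxy
    · exact (hc hs).2 x hxs y (h hyt) hxy
  refine ⟨S, hS.prop.1, fun hcount => ?_, hS.prop.2⟩
  obtain ⟨b, hb⟩ := exists_bound (hcount.union (hcount.image α))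
  obtain ⟨s, hs, hbs⟩ := exists_gt_of_uncountable hS₀ b
  have hmem : insert s S ∈ C := by
    refine ⟨Set.insert_subset hs hS.prop.1, ?_⟩
    rintro x (rfl | hx) y (rfl | hy) hxy
    · exact absurd hxy (lt_irrefl _)
    · exact absurd (hxy.trans (hb y (Or.inl hy))) (lt_asymm hbs)
    · exact (hb _ (Or.inr ⟨x, hx, rfl⟩)).trans hbs
    · exact hS.prop.2 x hx y hy hxy
  have : s ∈ S := hS.le_of_ge hmem (Set.subset_insert _ _) (Set.mem_insert _ _)
  exact lt_asymm hbs (hb s (Or.inl this))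

/-- The poset of finite subsets of `S₀` all of whose pairs satisfy `R`. -/
structure HomP (S₀ : Set W) (R : W → W → Prop) : Type where
  F : Finset W
  sub : ∀ c ∈ F, c ∈ S₀
  hom : ∀ c ∈ F, ∀ d ∈ F, c ≠ d → R c d

instance (S₀ : Set W) (R : W → W → Prop) : Preorder (HomP S₀ R) where
  le p q := q.F ⊆ p.F
  le_refl p := Finset.Subset.refl _
  le_trans p q r h1 h2 := Finset.Subset.trans h2 h1

lemma HomP.le_def {S₀ : Set W} {R : W → W → Prop} {p q : HomP S₀ R} : p ≤ q ↔ q.F ⊆ p.F :=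
  Iff.rfl

/-- Martin's Axiom gives uncountable homogeneous sets. -/
lemma ma_homogeneous (hMA : MartinAxiomAlephOne) {S₀ : Set W} (hS₀ : ¬ S₀.Countable)
    {R : W → W → Prop} (hccc : CCC (HomP S₀ R)) :
    ∃ Γ ⊆ S₀, ¬ Γ.Countable ∧ ∀ c ∈ Γ, ∀ d ∈ Γ, c ≠ d → R c d := by
  classical
  -- a good condition
  obtain ⟨F₀, hF₀⟩ : ∃ F₀ : HomP S₀ R, ∀ F : HomP S₀ R, F ≤ F₀ → ∀ a : W, ∃ b, a < b ∧
      ∃ q : HomP S₀ R, q ≤ F ∧ b ∈ q.F := by
    by_contra hcon
    push Not at hcon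
    choose Fb hle ab hab using hcon
    let sing : S₀ → HomP S₀ R := fun s => ⟨{s.1}, by
      intro c hc
      rw [Finset.mem_singleton] at hc
      exact hc ▸ s.2, by
      intro c hc d hd hne
      rw [Finset.mem_singleton] at hc hd
      exact absurd (hc.trans hd.symm) hne⟩
    let G : W → HomP S₀ R := fun s => if h : s ∈ S₀ then Fb (sing ⟨s, h⟩) else Fb ⟨∅, by simp, by simp⟩
    let α : W → W := fun s => if h : s ∈ S₀ then ab (sing ⟨s, h⟩) else s
    obtain ⟨S, hSS₀, hSunc, hS⟩ := exists_sparse hS₀ α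
    have hGmem : ∀ s ∈ S, s ∈ (G s).F := by
      intro s hs
      have h := hSS₀ hs
      have h1 : G s = Fb (sing ⟨s, h⟩) := by simp only [G, dif_pos h]
      rw [h1]
      exact hle (sing ⟨s, h⟩) (Finset.mem_singleton_self s)
    have hinc : ∀ x ∈ S, ∀ y ∈ S, x < y → ¬ ∃ r, r ≤ G x ∧ r ≤ G y := by
      rintro x hx y hy hxy ⟨r, hrx, hry⟩
      have h := hSS₀ hx
      have h1 : G x = Fb (sing ⟨x, h⟩) := by simp only [G, dif_pos h]
      have h2 : α x = ab (sing ⟨x, h⟩) := by simp only [α, dif_pos h]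
      have h3 := hS x hx y hy hxy
      rw [h2] at h3
      rw [h1] at hrx
      exact hab (sing ⟨x, h⟩) y h3 r hrx (hry (hGmem y hy))
    have hinj : Set.InjOn G S := by
      intro x hx y hy hxy
      by_contra hne
      rcases lt_or_gt_of_ne hne with h | h
      · exact hinc x hx y hy h ⟨G x, le_refl _, hxy ▸ le_refl _⟩
      · exact hinc y hy x hx h ⟨G y, le_refl _, hxy ▸ le_refl _⟩
    have hcount : (G '' S).Countable := by
      apply hccc
      rintro _ ⟨x, hx, rfl⟩ _ ⟨y, hy, rfl⟩ hne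
      have hxy : x ≠ y := fun h => hne (h ▸ rfl)
      rcases lt_or_gt_of_ne hxy with h | h
      · exact hinc x hx y hy h
      · rintro ⟨r, hr1, hr2⟩
        exact hinc y hy x hx h ⟨r, hr2, hr1⟩
    exact hSunc (Set.countable_of_injective_of_countable_image hinj hcount)
  -- apply MA below `F₀`
  let P := {F : HomP S₀ R // F ≤ F₀}
  have hP : CCC P := by
    intro A hA
    have h1 : ((fun p : P => p.1) '' A).Countable := by
      apply hccc
      rintro _ ⟨p, hp, rfl⟩ _ ⟨q, hq, rfl⟩ hne ⟨r, hrp, hrq⟩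
      exact hA p hp q hq (fun h => hne (h ▸ rfl)) ⟨⟨r, hrp.trans p.2⟩, hrp, hrq⟩
    exact Set.countable_of_injective_of_countable_image
      (Subtype.val_injective.injOn) h1
  have : Nonempty P := ⟨⟨F₀, le_refl _⟩⟩
  obtain ⟨G, -, -, hGdir, hGD⟩ := hMA P hP W (fun a => {p : P | ∃ b ∈ p.1.F, a < b}) mk_W.le
    (by
      rintro a ⟨p, hp⟩
      obtain ⟨b, hab, q, hqp, hbq⟩ := hF₀ p hp a
      exact ⟨⟨q, hqp.trans hp⟩, ⟨b, hbq, hab⟩, hqp⟩)
  refine ⟨{c | ∃ p ∈ G, c ∈ p.1.F}, ?_, ?_, ?_⟩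
  · rintro c ⟨p, _, hc⟩
    exact p.1.sub c hc
  · apply uncountable_of_unbounded
    intro a
    obtain ⟨p, hpG, b, hb, hab⟩ := hGD a
    exact ⟨b, ⟨p, hpG, hb⟩, hab⟩
  · rintro c ⟨p, hp, hc⟩ d ⟨q, hq, hd⟩ hne
    obtain ⟨r, _, hrp, hrq⟩ := hGdir p hp q hq
    exact r.1.hom c (hrp hc) d (hrq hd) hne

end Pool.Agent.Helper49.Gr
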