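import Mathlib
import Pool.Agent.Helper49.Gr.Combi

/-!
# A `σ`-centered application of Martin's Axiom
-/

set_option autoImplicit false

open Cardinal Ordinal Set

namespace Pool.Agent.Helper49.Gr

/-- Finite approximations to a sequence of finite sets. -/
structure SeqP {Ξ Γ T : Type} (V : Ξ → Set T) (N : Γ → Set T) : Type where
  l : List (Finset T)
  E : Finset Ξ
  Φ : Finset Γ

variable {Ξ Γ T : Type} {V : Ξ → Set T} {N : Γ → Set T}

instance : Preorder (SeqP V N) where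
  le p q := q.l <+: p.l ∧ q.E ⊆ p.E ∧ q.Φ ⊆ p.Φ ∧ ∀ n, q.l.length ≤ n → ∀ s, p.l[n]? = some s →
    (∀ t ∈ s, ∀ ξ ∈ q.E, t ∈ V ξ) ∧ (∀ c ∈ q.Φ, ∃ t ∈ s, t ∈ N c)
  le_refl p := ⟨List.prefix_refl _, Finset.Subset.refl _, Finset.Subset.refl _, fun n hn s hs => by
    rw [List.getElem?_eq_none hn] at hs
    exact absurd hs (by simp)⟩
  le_trans p q r h1 h2 := by
    refine ⟨h2.1.trans h1.1, h2.2.1.trans h1.2.1, h2.2.2.1.trans h1.2.2.1, fun n hn s hs => ?_⟩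
    by_cases hq : n < q.l.length
    · have : q.l[n]? = p.l[n]? := by
        obtain ⟨t, ht⟩ := h1.1
        rw [← ht, List.getElem?_append_left hq]
      exact h2.2.2.2 n hn s (this.trans hs)
    · rw [not_lt] at hq
      obtain ⟨h3, h4⟩ := h1.2.2.2 n hq s hs
      exact ⟨fun t ht ξ hξ => h3 t ht ξ (h2.2.1 hξ), fun c hc => h4 c (h2.2.2.1 hc)⟩

lemma SeqP.le_def {p q : SeqP V N} : p ≤ q ↔ (q.l <+: p.l ∧ q.E ⊆ p.E ∧ q.Φ ⊆ p.Φ ∧
    ∀ n, q.l.length ≤ n → ∀ s, p.l[n]? = some s →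
    (∀ t ∈ s, ∀ ξ ∈ q.E, t ∈ V ξ) ∧ (∀ c ∈ q.Φ, ∃ t ∈ s, t ∈ N c)) := Iff.rfl

lemma seqP_ccc [Countable T] : CCC (SeqP V N) := by
  classical
  intro A hA
  have hinj : Set.InjOn (fun p : SeqP V N => p.l) A := by
    intro p hp q hq hpq
    by_contra hne
    apply hA p hp q hq hne
    change p.l = q.l at hpq
    refine ⟨⟨p.l, p.E ∪ q.E, p.Φ ∪ q.Φ⟩, ?_, ?_⟩
    · refine ⟨List.prefix_refl _, Finset.subset_union_left, Finset.subset_union_left, ?_⟩
      intro n hn s hs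
      rw [List.getElem?_eq_none hn] at hs
      exact absurd hs (by simp)
    · refine ⟨by rw [← hpq], Finset.subset_union_right, Finset.subset_union_right, ?_⟩
      intro n hn s hs
      rw [← hpq] at hn
      rw [List.getElem?_eq_none hn] at hs
      exact absurd hs (by simp)
  exact Set.countable_of_injective_of_countable_image hinj (Set.to_countable _)

lemma seqP_append (h : ∀ (E : Finset Ξ) (c : Γ), ∃ t, t ∈ N c ∧ ∀ ξ ∈ E, t ∈ V ξ)
    (p : SeqP V N) : ∃ q : SeqP V N, q ≤ p ∧ q.l.length = p.l.length + 1 := by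
  classical
  choose t ht1 ht2 using h p.E
  refine ⟨⟨p.l ++ [p.Φ.image t], p.E, p.Φ⟩, ?_, by simp⟩
  refine ⟨List.prefix_append _ _, Finset.Subset.refl _, Finset.Subset.refl _, ?_⟩
  intro n hn s hs
  have hs' : s = p.Φ.image t := by
    have hn' : n = p.l.length := by
      by_contra hne
      have : p.l.length < n := lt_of_le_of_ne hn (Ne.symm hne)
      rw [List.getElem?_eq_none (by simp; omega)] at hs
      exact absurd hs (by simp)
    subst hn'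
    simpa using hs.symm
  subst hs'
  refine ⟨?_, ?_⟩
  · intro u hu ξ hξ
    obtain ⟨c, _, rfl⟩ := Finset.mem_image.mp hu
    exact ht2 c ξ hξ
  · intro c hc
    exact ⟨t c, Finset.mem_image_of_mem _ hc, ht1 c⟩

lemma ma_sequence (hMA : MartinAxiomAlephOne) [Countable T] (hΞ : #Ξ ≤ ℵ₁) (hΓ : #Γ ≤ ℵ₁)
    (h : ∀ (E : Finset Ξ) (c : Γ), ∃ t, t ∈ N c ∧ ∀ ξ ∈ E, t ∈ V ξ) :
    ∃ s : ℕ → Finset T, (∀ ξ, ∃ n₀, ∀ n ≥ n₀, ∀ t ∈ s n, t ∈ V ξ) ∧
      (∀ c, ∃ n₀, ∀ n ≥ n₀, ∃ t ∈ s n, t ∈ N c) := by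
  classical
  have : Nonempty (SeqP V N) := ⟨⟨[], ∅, ∅⟩⟩
  let D : Ξ ⊕ (Γ ⊕ ℕ) → Set (SeqP V N) := fun i =>
    match i with
    | Sum.inl ξ => {p | ξ ∈ p.E}
    | Sum.inr (Sum.inl c) => {p | c ∈ p.Φ}
    | Sum.inr (Sum.inr n) => {p | n < p.l.length}
  have hcard : #(Ξ ⊕ (Γ ⊕ ℕ)) ≤ ℵ₁ := by
    have hinf : ℵ₀ ≤ (ℵ₁ : Cardinal.{0}) := Cardinal.aleph0_le_aleph 1
    rw [Cardinal.mk_sum, Cardinal.mk_sum]
    simp only [Cardinal.lift_id, Cardinal.mk_nat]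
    exact Cardinal.add_le_of_le hinf hΞ (Cardinal.add_le_of_le hinf hΓ hinf)
  obtain ⟨G, -, -, hGdir, hGD⟩ := hMA (SeqP V N) seqP_ccc _ D hcard (by
    rintro (ξ | c | n) p
    · refine ⟨⟨p.l, insert ξ p.E, p.Φ⟩, Finset.mem_insert_self _ _, List.prefix_refl _,
        Finset.subset_insert _ _, Finset.Subset.refl _, ?_⟩
      intro n hn s hs
      rw [List.getElem?_eq_none hn] at hs
      exact absurd hs (by simp)
    · refine ⟨⟨p.l, p.E, insert c p.Φ⟩, Finset.mem_insert_self _ _, List.prefix_refl _,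
        Finset.Subset.refl _, Finset.subset_insert _ _, ?_⟩
      intro n hn s hs
      rw [List.getElem?_eq_none hn] at hs
      exact absurd hs (by simp)
    · have key : ∀ k : ℕ, ∃ q : SeqP V N, q ≤ p ∧ k ≤ q.l.length := by
        intro k
        induction k with
        | zero => exact ⟨p, le_refl _, Nat.zero_le _⟩
        | succ k ih =>
          obtain ⟨q, hqp, hkq⟩ := ih
          obtain ⟨r, hrq, hr⟩ := seqP_append h q
          exact ⟨r, hrq.trans hqp, by omega⟩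
      obtain ⟨q, hqp, hq⟩ := key (n + 1)
      exact ⟨q, hq, hqp⟩)
  choose p hpG hpD using fun n : ℕ => hGD (Sum.inr (Sum.inr n))
  have hpD' : ∀ n, n < (p n).l.length := fun n => hpD n
  refine ⟨fun n => (p n).l[n]'(hpD' n), ?_, ?_⟩
  · intro ξ
    obtain ⟨q, hqG, hq⟩ := hGD (Sum.inl ξ)
    refine ⟨q.l.length, fun n hn => ?_⟩
    obtain ⟨r, _, hrq, hrp⟩ := hGdir q hqG (p n) (hpG n)
    have hr : r.l[n]? = some ((p n).l[n]'(hpD' n)) := by
      obtain ⟨t, ht⟩ := hrp.1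
      rw [← ht, List.getElem?_append_left (hpD' n), List.getElem?_eq_getElem (hpD' n)]
    intro t ht
    exact (hrq.2.2.2 n hn _ hr).1 t ht ξ hq
  · intro c
    obtain ⟨q, hqG, hq⟩ := hGD (Sum.inr (Sum.inl c))
    refine ⟨q.l.length, fun n hn => ?_⟩
    obtain ⟨r, _, hrq, hrp⟩ := hGdir q hqG (p n) (hpG n)
    have hr : r.l[n]? = some ((p n).l[n]'(hpD' n)) := by
      obtain ⟨t, ht⟩ := hrp.1
      rw [← ht, List.getElem?_append_left (hpD' n), List.getElem?_eq_getElem (hpD' n)]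
    exact (hrq.2.2.2 n hn _ hr).2 c hq

end Pool.Agent.Helper49.Gr
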