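import Mathlib
import Pool.Agent.Helper49.Gr.Seq

/-!
# Under `MA_{ℵ₁}` separable compact subsets of `C_p(X)` are metrizable when `l*(X) = ω`
-/

set_option autoImplicit false

open Cardinal Ordinal Set Topology

namespace Pool.Agent.Helper49.Gr

/-- Complete accumulation points in Lindelöf spaces. -/
lemma exists_accum {X : Type*} [TopologicalSpace X] [LindelofSpace X] {ι : Type*} {I : Set ι}
    (hI : ¬ I.Countable) (x : ι → X) :
    ∃ z, ∀ U, IsOpen U → z ∈ U → ¬ {i | i ∈ I ∧ x i ∈ U}.Countable := by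
  by_contra hcon
  push Not at hcon
  choose U hUo hzU hUc using hcon
  obtain ⟨t, htc, -, ht⟩ := isLindelof_univ.elim_nhds_subcover U
    (fun z _ => (hUo z).mem_nhds (hzU z))
  apply hI
  refine (htc.biUnion fun z _ => hUc z).mono fun i hi => ?_
  obtain ⟨z, hz, hxz⟩ := Set.mem_iUnion₂.mp (ht (Set.mem_univ (x i)))
  exact Set.mem_iUnion₂.mpr ⟨z, hz, hi, hxz⟩

/-- The common set-up. -/
structure Setup (X : Type) [TopologicalSpace X] where
  x : W → X
  p : W → X → ℝ
  q : W → X → ℝ
  ε : ℝ
  S₀ : Set W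
  X₁ : Set X
  hp : ∀ a, Continuous (p a)
  hq : ∀ a, Continuous (q a)
  hε : 0 < ε
  hagree : ∀ a c, c < a → p a (x c) = q a (x c)
  hX₁ : IsClosed X₁
  hx : ∀ a, x a ∈ X₁
  hdep : ∀ z ∈ X₁, ∃ b, ∀ a, b < a → p a z = q a z

namespace Setup

variable {X : Type} [TopologicalSpace X] (D : Setup X)

/-- The relation. -/
def R (c e : W) : Prop := |D.p e (D.x c) - D.q e (D.x c)| ≤ D.ε / 3

lemma ccc_aux (hL : LindelofPowers X) (n : ℕ) :
    ∀ 𝒜 : Set (Finset W), ¬ 𝒜.Countable →
    (∀ F ∈ 𝒜, F.card = n ∧ ∀ c ∈ F, ∀ e ∈ F, c ≠ e → D.R c e) →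
    ∃ F ∈ 𝒜, ∃ G ∈ 𝒜, F ≠ G ∧ ∀ c ∈ F ∪ G, ∀ e ∈ F ∪ G, c ≠ e → D.R c e := by
  classical
  induction n with
  | zero =>
    intro 𝒜 h𝒜 h
    exact absurd ((Set.countable_singleton (∅ : Finset W)).mono fun F hF =>
      Finset.card_eq_zero.mp (h F hF).1) h𝒜
  | succ n ih =>
    intro 𝒜 h𝒜 h
    by_cases hcase : ∃ w, ¬ {F | F ∈ 𝒜 ∧ w ∈ F}.Countable
    · obtain ⟨w, hw⟩ := hcase
      have hinj : Set.InjOn (fun F : Finset W => F.erase w) {F | F ∈ 𝒜 ∧ w ∈ F} := by
        rintro F ⟨_, hF⟩ G ⟨_, hG⟩ hFG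
        change F.erase w = G.erase w at hFG
        rw [← Finset.insert_erase hF, ← Finset.insert_erase hG, hFG]
      have hunc : ¬ ((fun F : Finset W => F.erase w) '' {F | F ∈ 𝒜 ∧ w ∈ F}).Countable :=
        fun hc => hw (Set.countable_of_injective_of_countable_image hinj hc)
      obtain ⟨_, ⟨F, ⟨hF, hwF⟩, rfl⟩, _, ⟨G, ⟨hG, hwG⟩, rfl⟩, hne, hhom⟩ := ih _ hunc (by
        rintro _ ⟨F, ⟨hF, hwF⟩, rfl⟩
        refine ⟨?_, fun c hc e he hce => ?_⟩
        · rw [Finset.card_erase_of_mem hwF, (h F hF).1, Nat.add_sub_cancel]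
        · exact (h F hF).2 c (Finset.mem_of_mem_erase hc) e (Finset.mem_of_mem_erase he) hce)
      refine ⟨F, hF, G, hG, fun hFG => hne (by rw [hFG]), fun c hc e he hce => ?_⟩
      by_cases hcw : c = w
      · subst hcw
        rcases Finset.mem_union.mp he with he | he
        · exact (h F hF).2 c hwF e he hce
        · exact (h G hG).2 c hwG e he hce
      · by_cases hew : e = w
        · subst hew
          rcases Finset.mem_union.mp hc with hc | hc
          · exact (h F hF).2 c hc e hwF hce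
          · exact (h G hG).2 c hc e hwG hce
        · refine hhom c ?_ e ?_ hce
          · rcases Finset.mem_union.mp hc with hc | hc
            · exact Finset.mem_union_left _ (Finset.mem_erase.mpr ⟨hcw, hc⟩)
            · exact Finset.mem_union_right _ (Finset.mem_erase.mpr ⟨hcw, hc⟩)
          · rcases Finset.mem_union.mp he with he | he
            · exact Finset.mem_union_left _ (Finset.mem_erase.mpr ⟨hew, he⟩)
            · exact Finset.mem_union_right _ (Finset.mem_erase.mpr ⟨hew, he⟩)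
    · push Not at hcase
      -- all but countably many members lie above a given bound
      have habove : ∀ (𝓑 : Set (Finset W)), 𝓑 ⊆ 𝒜 → ¬ 𝓑.Countable → ∀ b : W,
          ∃ F ∈ 𝓑, ∀ w ∈ F, b < w := by
        intro 𝓑 h𝓑 hunc b
        by_contra hcon
        push Not at hcon
        apply hunc
        refine ((countable_Iic b).biUnion fun w _ => hcase w).mono fun F hF => ?_
        obtain ⟨w, hw, hwb⟩ := hcon F hF
        exact Set.mem_iUnion₂.mpr ⟨w, hwb, h𝓑 hF, hw⟩
      obtain ⟨w₀⟩ : Nonempty W := inferInstance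
      let T : Finset W → Fin (n + 1) → X := fun F i =>
        if hF : F.card = n + 1 then D.x (F.orderEmbOfFin hF i) else D.x w₀
      have hTX : ∀ F i, T F i ∈ D.X₁ := by
        intro F i
        simp only [T]
        split_ifs
        · exact D.hx _
        · exact D.hx _
      have hTF : ∀ F (hF : F.card = n + 1) c, c ∈ F → ∃ i, T F i = D.x c := by
        intro F hF c hc
        have : c ∈ Set.range (F.orderEmbOfFin hF) := by
          rw [Finset.range_orderEmbOfFin]
          exact hc
        obtain ⟨i, hi⟩ := this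
        exact ⟨i, by simp only [T, dif_pos hF, hi]⟩
      have := hL (n + 1)
      obtain ⟨y, hy⟩ := exists_accum h𝒜 T
      have hyX : ∀ i, y i ∈ D.X₁ := by
        intro i
        by_contra hcon
        have hU : IsOpen {y' : Fin (n + 1) → X | y' i ∈ D.X₁ᶜ} :=
          D.hX₁.isOpen_compl.preimage (continuous_apply i)
        apply hy _ hU hcon
        have : {F | F ∈ 𝒜 ∧ T F ∈ {y' : Fin (n + 1) → X | y' i ∈ D.X₁ᶜ}} = ∅ := by
          ext F
          simp only [Set.mem_ofPred_eq, Set.mem_empty_iff_false, iff_false, not_and]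
          intro _ h2
          exact h2 (hTX F i)
        rw [this]
        exact Set.countable_empty
      choose b hb using fun i => D.hdep (y i) (hyX i)
      obtain ⟨b₀, hb₀⟩ := exists_bound (Set.countable_range b)
      obtain ⟨F, hF, hFb⟩ := habove 𝒜 (Set.Subset.refl _) h𝒜 b₀
      obtain ⟨b₁, hb₁⟩ := exists_bound (S := (F : Set W)) F.countable_toSet
      let U : Set (Fin (n + 1) → X) := {y' | ∀ e ∈ F, ∀ i, |D.p e (y' i) - D.q e (y' i)| < D.ε / 3}
      have hUo : IsOpen U := by
        have : U = ⋂ e ∈ F, ⋂ i, {y' | |D.p e (y' i) - D.q e (y' i)| < D.ε / 3} := by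
          ext y'
          simp [U]
        rw [this]
        refine isOpen_biInter_finset fun e _ => isOpen_iInter_of_finite fun i => ?_
        refine isOpen_lt ?_ continuous_const
        exact ((D.hp e).comp (continuous_apply i)).sub ((D.hq e).comp (continuous_apply i)) |>.abs
      have hyU : y ∈ U := by
        intro e he i
        rw [hb i e ((hb₀ _ ⟨i, rfl⟩).trans (hFb e he)), _root_.sub_self, abs_zero]
        have := D.hε
        positivity
      obtain ⟨G, ⟨hG, hGU⟩, hGb⟩ := habove {F | F ∈ 𝒜 ∧ T F ∈ U} (fun F hF => hF.1)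
        (hy U hUo hyU) b₁
      refine ⟨F, hF, G, hG, ?_, ?_⟩
      · intro hFG
        have hne : F.Nonempty := by
          rw [← Finset.card_pos, (h F hF).1]
          exact Nat.succ_pos n
        obtain ⟨w, hw⟩ := hne
        exact lt_asymm (hb₁ w hw) (hGb w (hFG ▸ hw))
      · intro c hc e he hce
        rcases Finset.mem_union.mp hc with hc | hc <;> rcases Finset.mem_union.mp he with he | he
        · exact (h F hF).2 c hc e he hce
        · have hlt : c < e := (hb₁ c hc).trans (hGb e he)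
          unfold R
          rw [D.hagree e c hlt, _root_.sub_self, abs_zero]
          have := D.hε
          positivity
        · obtain ⟨i, hi⟩ := hTF G (h G hG).1 c hc
          have := hGU e he i
          rw [hi] at this
          exact this.le
        · exact (h G hG).2 c hc e he hce

lemma ccc (hL : LindelofPowers X) : CCC (HomP D.S₀ D.R) := by
  classical
  intro A hA
  by_contra hunc
  obtain ⟨n, hn⟩ : ∃ n, ¬ {p | p ∈ A ∧ p.F.card = n}.Countable := by
    by_contra hcon
    push Not at hcon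
    apply hunc
    refine (Set.countable_iUnion hcon).mono fun p hp => ?_
    exact Set.mem_iUnion.mpr ⟨p.F.card, hp, rfl⟩
  have hinj : Set.InjOn (fun p : HomP D.S₀ D.R => p.F) {p | p ∈ A ∧ p.F.card = n} := by
    rintro ⟨F, h1, h2⟩ _ ⟨G, h3, h4⟩ _ hFG
    change F = G at hFG
    subst hFG
    rfl
  obtain ⟨_, ⟨p, ⟨hp, _⟩, rfl⟩, _, ⟨q, ⟨hq, _⟩, rfl⟩, hne, hhom⟩ := D.ccc_aux hL n
    ((fun p : HomP D.S₀ D.R => p.F) '' {p | p ∈ A ∧ p.F.card = n})
    (fun hc => hn (Set.countable_of_injective_of_countable_image hinj hc)) (by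
      rintro _ ⟨p, ⟨_, hp⟩, rfl⟩
      exact ⟨hp, p.hom⟩)
  refine hA p hp q hq (fun h => hne (h ▸ rfl)) ⟨⟨p.F ∪ q.F, ?_, hhom⟩, ?_, ?_⟩
  · intro c hc
    rcases Finset.mem_union.mp hc with hc | hc
    · exact p.sub c hc
    · exact q.sub c hc
  · exact Finset.subset_union_left
  · exact Finset.subset_union_right

end Setup

end Pool.Agent.Helper49.Gr
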