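import Mathlib
import Pool.Agent.Helper49.Gr.Sep

/-!
# Under `MA_{ℵ₁}` separable compact subsets of `C_p(X)` are metrizable when `l*(X) = ω`, part 2
-/

set_option autoImplicit false

open Cardinal Ordinal Set Topology

namespace Pool.Agent.Helper49.Gr

lemma lindelofSpace_of_powers {X : Type} [TopologicalSpace X] (hL : LindelofPowers X) :
    LindelofSpace X := by
  have := hL 1
  refine ⟨?_⟩
  have h1 : IsLindelof ((fun f : Fin 1 → X => f 0) '' Set.univ) :=
    isLindelof_univ.image (continuous_apply 0)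
  have h2 : (fun f : Fin 1 → X => f 0) '' Set.univ = Set.univ := by
    ext z
    simp only [Set.image_univ, Set.mem_range, Set.mem_univ, iff_true]
    exact ⟨fun _ => z, rfl⟩
  rwa [h2] at h1

/-- The key theorem. -/
theorem separates (hMA : MartinAxiomAlephOne) {X : Type} [TopologicalSpace X]
    (hL : LindelofPowers X) (d : ℕ → X → ℝ) (hKc : IsCompact (closure (Set.range d)))
    (hcont : ∀ u ∈ closure (Set.range d), Continuous u) :
    ∃ C : Set X, C.Countable ∧ ∀ u ∈ closure (Set.range d), ∀ v ∈ closure (Set.range d),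
      (∀ x ∈ C, u x = v x) → u = v := by
  classical
  set K := closure (Set.range d) with hK
  have hKclosed : IsClosed K := isClosed_closure
  have := lindelofSpace_of_powers hL
  by_contra hcon
  push Not at hcon
  -- the transfinite sequences
  obtain ⟨g, hg⟩ := exists_rec (β := X × (X → ℝ) × (X → ℝ))
    (fun a f b => b.2.1 ∈ K ∧ b.2.2 ∈ K ∧ (∀ c (h : c < a), b.2.1 (f c h).1 = b.2.2 (f c h).1) ∧
      b.2.1 b.1 ≠ b.2.2 b.1) (by
    intro a f
    have hC : (Set.range fun c : Set.Iio a => (f c.1 c.2).1).Countable := by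
      have := (countable_Iio a).to_subtype
      exact Set.countable_range _
    obtain ⟨u, hu, v, hv, huv, hne⟩ := hcon _ hC
    obtain ⟨z, hz⟩ := Function.ne_iff.mp hne
    exact ⟨⟨z, u, v⟩, hu, hv, fun c h => huv _ ⟨⟨c, h⟩, rfl⟩, hz⟩)
  set x : W → X := fun a => (g a).1 with hx
  set p : W → X → ℝ := fun a => (g a).2.1 with hp
  set q : W → X → ℝ := fun a => (g a).2.2 with hq
  have hpK : ∀ a, p a ∈ K := fun a => (hg a).1
  have hqK : ∀ a, q a ∈ K := fun a => (hg a).2.1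
  have hagree : ∀ a c, c < a → p a (x c) = q a (x c) := fun a c h => (hg a).2.2.1 c h
  have hne : ∀ a, p a (x a) ≠ q a (x a) := fun a => (hg a).2.2.2
  -- a uniform gap
  obtain ⟨ε, hε, hS₀⟩ : ∃ ε : ℝ, 0 < ε ∧ ¬ {a | ε ≤ |p a (x a) - q a (x a)|}.Countable := by
    by_contra hc
    push Not at hc
    apply not_countable_univ_W
    refine (Set.countable_iUnion fun n : ℕ => hc (1 / ((n : ℝ) + 1)) (by positivity)).mono
      fun a _ => ?_
    obtain ⟨n, hn⟩ := exists_nat_one_div_lt (abs_pos.mpr (sub_ne_zero.mpr (hne a)))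
    exact Set.mem_iUnion.mpr ⟨n, hn.le⟩
  set S₀ : Set W := {a | ε ≤ |p a (x a) - q a (x a)|} with hS₀def
  -- the closed subset `X₁`
  set X₁ : Set X := {z | ∀ u ∈ K, ∀ v ∈ K, (∀ a, u (x a) = v (x a)) → u z = v z} with hX₁def
  have hX₁ : IsClosed X₁ := by
    have : X₁ = ⋂ u ∈ K, ⋂ v ∈ K, ⋂ (_ : ∀ a, u (x a) = v (x a)), {z | u z = v z} := by
      ext z
      simp [hX₁def]
    rw [this]
    refine isClosed_biInter fun u hu => isClosed_biInter fun v hv => isClosed_iInter fun _ => ?_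
    exact isClosed_eq (hcont u hu) (hcont v hv)
  have hxX : ∀ a, x a ∈ X₁ := fun a u _ v _ h => h a
  have hdep : ∀ z ∈ X₁, ∃ b, ∀ a, b < a → p a z = q a z := by
    intro z hz
    have hev : ∀ y : X, Continuous fun w : (X → ℝ) × (X → ℝ) => |w.1 y - w.2 y| := by
      intro y
      exact ((continuous_apply y).comp continuous_fst).sub
        ((continuous_apply y).comp continuous_snd) |>.abs
    have hfin : ∀ n : ℕ, ∃ t : Finset W, ∀ u ∈ K, ∀ v ∈ K, (∀ a ∈ t, u (x a) = v (x a)) →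
        |u z - v z| < 1 / ((n : ℝ) + 1) := by
      intro n
      have hcomp : IsCompact ((K ×ˢ K) ∩ {w | 1 / ((n : ℝ) + 1) ≤ |w.1 z - w.2 z|}) :=
        (hKc.prod hKc).inter_right (isClosed_le continuous_const (hev z))
      obtain ⟨t, ht⟩ := hcomp.elim_finite_subcover
        (fun a : W => {w : (X → ℝ) × (X → ℝ) | 0 < |w.1 (x a) - w.2 (x a)|})
        (fun a => isOpen_lt continuous_const (hev (x a))) (by
          rintro w ⟨⟨hw1, hw2⟩, hw⟩
          by_contra hcon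
          simp only [Set.mem_iUnion, Set.mem_ofPred_eq, not_exists, not_lt] at hcon
          have h0 := hz w.1 hw1 w.2 hw2 (fun a => sub_eq_zero.mp (abs_nonpos_iff.mp (hcon a)))
          have h1 : 1 / ((n : ℝ) + 1) ≤ |w.1 z - w.2 z| := hw
          rw [h0, _root_.sub_self, abs_zero] at h1
          have h2 : (0 : ℝ) < 1 / ((n : ℝ) + 1) := by positivity
          linarith)
      refine ⟨t, fun u hu v hv huv => ?_⟩
      by_contra hcon
      rw [not_lt] at hcon
      have hmem : (u, v) ∈ (K ×ˢ K) ∩ {w : (X → ℝ) × (X → ℝ) | 1 / ((n : ℝ) + 1) ≤ |w.1 z - w.2 z|} :=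
        ⟨⟨hu, hv⟩, hcon⟩
      obtain ⟨a, ha, haw⟩ := Set.mem_iUnion₂.mp (ht hmem)
      have haw' : 0 < |u (x a) - v (x a)| := haw
      rw [huv a ha, _root_.sub_self, abs_zero] at haw'
      exact lt_irrefl _ haw'
    choose t ht using hfin
    obtain ⟨b, hb⟩ := exists_bound (S := ⋃ n, (t n : Set W))
      (Set.countable_iUnion fun n => (t n).countable_toSet)
    refine ⟨b, fun a ha => ?_⟩
    by_contra hcon
    obtain ⟨n, hn⟩ := exists_nat_one_div_lt (abs_pos.mpr (sub_ne_zero.mpr hcon))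
    have := ht n (p a) (hpK a) (q a) (hqK a) (fun c hc =>
      hagree a c ((hb c (Set.mem_iUnion.mpr ⟨n, hc⟩)).trans ha))
    exact lt_asymm hn this
  let D : Setup X :=
    { x := x, p := p, q := q, ε := ε, S₀ := S₀, X₁ := X₁
      hp := fun a => hcont _ (hpK a)
      hq := fun a => hcont _ (hqK a)
      hε := hε
      hagree := hagree
      hX₁ := hX₁
      hx := hxX
      hdep := hdep }
  obtain ⟨Γ, hΓS, hΓ, hfree⟩ := ma_homogeneous hMA hS₀ (D.ccc hL)
  have hfree' : ∀ c ∈ Γ, ∀ e ∈ Γ, c ≠ e → |p e (x c) - q e (x c)| ≤ ε / 3 := hfree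
  -- the compact set `L`
  set L : Set ((X → ℝ) × (X → ℝ)) := closure ((fun c => (p c, q c)) '' Γ) with hLdef
  have hLK : L ⊆ K ×ˢ K := by
    apply closure_minimal
    · rintro _ ⟨c, _, rfl⟩
      exact ⟨hpK c, hqK c⟩
    · exact hKclosed.prod hKclosed
  have hLc : IsCompact L := (hKc.prod hKc).of_isClosed_subset isClosed_closure hLK
  -- the sequence of finite sets
  let V : Finset W × ℕ → Set (ℕ × ℕ) := fun ξ => {t | ∃ w ∈ L, ∀ a ∈ ξ.1,
    |d t.1 (x a) - w.1 (x a)| < 1 / ((ξ.2 : ℝ) + 1) ∧ |d t.2 (x a) - w.2 (x a)| < 1 / ((ξ.2 : ℝ) + 1)}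
  let N : Γ → Set (ℕ × ℕ) := fun c => {t | 2 * ε / 3 < |d t.1 (x c) - d t.2 (x c)|}
  have hcardW : #(Finset W × ℕ) ≤ ℵ₁ := by
    have hinf : Infinite W := inferInstance
    rw [Cardinal.mk_prod, Cardinal.lift_id, Cardinal.lift_id, Cardinal.mk_finset_of_infinite,
      mk_W, Cardinal.mk_nat]
    exact (Cardinal.mul_le_max _ _).trans (by
      simp [Cardinal.aleph0_le_aleph])
  have hcardΓ : #Γ ≤ ℵ₁ := (Cardinal.mk_subtype_le _).trans mk_W.le
  obtain ⟨s, hsV, hsN⟩ := ma_sequence hMA (V := V) (N := N) hcardW hcardΓ (by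
    intro E c
    have hO : IsOpen {w : (X → ℝ) × (X → ℝ) | 2 * ε / 3 < |w.1 (x c) - w.2 (x c)| ∧
        ∀ ξ ∈ E, ∀ a ∈ ξ.1, |w.1 (x a) - p c (x a)| < 1 / ((ξ.2 : ℝ) + 1) ∧
          |w.2 (x a) - q c (x a)| < 1 / ((ξ.2 : ℝ) + 1)} := by
      have h1 : ∀ y : X, Continuous fun w : (X → ℝ) × (X → ℝ) => w.1 y := fun y =>
        (continuous_apply y).comp continuous_fst
      have h2 : ∀ y : X, Continuous fun w : (X → ℝ) × (X → ℝ) => w.2 y := fun y =>
        (continuous_apply y).comp continuous_snd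
      have hA : IsOpen {w : (X → ℝ) × (X → ℝ) | 2 * ε / 3 < |w.1 (x c) - w.2 (x c)|} :=
        isOpen_lt continuous_const ((h1 _).sub (h2 _)).abs
      have hB : IsOpen {w : (X → ℝ) × (X → ℝ) | ∀ ξ ∈ E, ∀ a ∈ ξ.1,
          |w.1 (x a) - p c (x a)| < 1 / ((ξ.2 : ℝ) + 1) ∧
          |w.2 (x a) - q c (x a)| < 1 / ((ξ.2 : ℝ) + 1)} := by
        have : {w : (X → ℝ) × (X → ℝ) | ∀ ξ ∈ E, ∀ a ∈ ξ.1,
            |w.1 (x a) - p c (x a)| < 1 / ((ξ.2 : ℝ) + 1) ∧
            |w.2 (x a) - q c (x a)| < 1 / ((ξ.2 : ℝ) + 1)} = ⋂ ξ ∈ E, ⋂ a ∈ ξ.1,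
            ({w | |w.1 (x a) - p c (x a)| < 1 / ((ξ.2 : ℝ) + 1)} ∩
            {w | |w.2 (x a) - q c (x a)| < 1 / ((ξ.2 : ℝ) + 1)}) := by
          ext w
          simp only [Set.mem_ofPred_eq, Set.mem_iInter, Set.mem_inter_iff]
        rw [this]
        refine isOpen_biInter_finset fun ξ _ => isOpen_biInter_finset fun a _ => ?_
        exact (isOpen_lt ((h1 _).sub continuous_const).abs continuous_const).inter
          (isOpen_lt ((h2 _).sub continuous_const).abs continuous_const)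
      exact hA.inter hB
    have hmem : (p c, q c) ∈ closure (Set.range d ×ˢ Set.range d) := by
      rw [closure_prod_eq]
      exact ⟨hpK c, hqK c⟩
    obtain ⟨w, hwO, ⟨⟨i, hi⟩, ⟨j, hj⟩⟩⟩ := mem_closure_iff.mp hmem _ hO (by
      refine ⟨?_, fun ξ _ a _ => ?_⟩
      · have := hΓS c.2
        have h' : ε ≤ |p c (x c) - q c (x c)| := this
        show 2 * ε / 3 < |p c (x c) - q c (x c)|
        linarith
      · have h2 : (0 : ℝ) < 1 / ((ξ.2 : ℝ) + 1) := by positivity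
        show |p c (x a) - p c (x a)| < _ ∧ |q c (x a) - q c (x a)| < _
        rw [_root_.sub_self, _root_.sub_self, abs_zero]
        exact ⟨h2, h2⟩)
    refine ⟨(i, j), ?_, fun ξ hξ => ?_⟩
    · show 2 * ε / 3 < |d i (x c) - d j (x c)|
      rw [hi, hj]
      exact hwO.1
    · refine ⟨(p c, q c), subset_closure ⟨c, c.2, rfl⟩, fun a ha => ?_⟩
      show |d i (x a) - p c (x a)| < _ ∧ |d j (x a) - q c (x a)| < _
      rw [hi, hj]
      exact hwO.2 ξ hξ a ha)
  -- pigeonhole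
  choose n₀ hn₀ using hsN
  obtain ⟨m, hm⟩ : ∃ m : ℕ, ¬ {c | ∃ h : c ∈ Γ, n₀ ⟨c, h⟩ ≤ m}.Countable := by
    by_contra hc
    push Not at hc
    apply hΓ
    refine (Set.countable_iUnion hc).mono fun c hcΓ => ?_
    exact Set.mem_iUnion.mpr ⟨n₀ ⟨c, hcΓ⟩, hcΓ, le_refl _⟩
  obtain ⟨z, hz⟩ := exists_accum hm x
  have hzX : z ∈ X₁ := by
    by_contra hcon
    apply hz _ hX₁.isOpen_compl hcon
    have : {i | i ∈ {c | ∃ h : c ∈ Γ, n₀ ⟨c, h⟩ ≤ m} ∧ x i ∈ X₁ᶜ} = ∅ := by
      ext c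
      simp only [Set.mem_ofPred_eq, Set.mem_empty_iff_false, iff_false, not_and]
      intro _ h2
      exact h2 (hxX c)
    rw [this]
    exact Set.countable_empty
  have hz1 : ∀ c ∈ Γ, |p c z - q c z| ≤ ε / 3 := by
    intro c hc
    by_contra hcon
    rw [not_le] at hcon
    have hU : IsOpen {y : X | ε / 3 < |p c y - q c y|} :=
      isOpen_lt continuous_const ((hcont _ (hpK c)).sub (hcont _ (hqK c))).abs
    apply hz _ hU hcon
    refine (Set.countable_singleton c).mono ?_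
    rintro e ⟨⟨he, _⟩, hxe⟩
    by_contra hne'
    exact absurd (hfree' e he c hc hne') (not_le.mpr hxe)
  have hzev : Continuous fun w : (X → ℝ) × (X → ℝ) => |w.1 z - w.2 z| :=
    (((continuous_apply z).comp continuous_fst).sub
        ((continuous_apply z).comp continuous_snd)).abs
  have hz2 : ∀ w ∈ L, |w.1 z - w.2 z| ≤ ε / 3 := by
    intro w hw
    have : L ⊆ {w | |w.1 z - w.2 z| ≤ ε / 3} := by
      apply closure_minimal
      · rintro _ ⟨c, hc, rfl⟩
        exact hz1 c hc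
      · exact isClosed_le hzev continuous_const
    exact this hw
  obtain ⟨ξ, hξ⟩ : ∃ ξ, ∀ t ∈ V ξ, |d t.1 z - d t.2 z| < ε / 2 := by
    have hcomp : IsCompact (((K ×ˢ K) ∩ {w | ε / 2 ≤ |w.1 z - w.2 z|}) ×ˢ L) :=
      ((hKc.prod hKc).inter_right (isClosed_le continuous_const hzev)).prod hLc
    have hc1 : ∀ y : X, Continuous fun w : ((X → ℝ) × (X → ℝ)) × ((X → ℝ) × (X → ℝ)) =>
        |w.1.1 y - w.2.1 y| := fun y =>
      (((continuous_apply y).comp (continuous_fst.comp continuous_fst)).sub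
        ((continuous_apply y).comp (continuous_fst.comp continuous_snd))).abs
    have hc2 : ∀ y : X, Continuous fun w : ((X → ℝ) × (X → ℝ)) × ((X → ℝ) × (X → ℝ)) =>
        |w.1.2 y - w.2.2 y| := fun y =>
      (((continuous_apply y).comp (continuous_snd.comp continuous_fst)).sub
        ((continuous_apply y).comp (continuous_snd.comp continuous_snd))).abs
    obtain ⟨t, ht⟩ := hcomp.elim_finite_subcover
      (fun am : W × ℕ => {w : ((X → ℝ) × (X → ℝ)) × ((X → ℝ) × (X → ℝ)) |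
        1 / ((am.2 : ℝ) + 1) < |w.1.1 (x am.1) - w.2.1 (x am.1)|} ∪
        {w | 1 / ((am.2 : ℝ) + 1) < |w.1.2 (x am.1) - w.2.2 (x am.1)|})
      (fun am => (isOpen_lt continuous_const (hc1 _)).union (isOpen_lt continuous_const (hc2 _)))
      (by
        rintro ⟨⟨u, v⟩, ⟨u', v'⟩⟩ ⟨⟨⟨hu, hv⟩, huv⟩, hL'⟩
        by_contra hcon
        simp only [Set.mem_iUnion, not_exists, Set.mem_union, Set.mem_ofPred_eq, not_or,
          not_lt] at hcon
        have hlim : ∀ r : ℝ, 0 ≤ r → (∀ n : ℕ, r ≤ 1 / ((n : ℝ) + 1)) → r = 0 := by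
          intro r hr hr'
          by_contra h0
          obtain ⟨n, hn⟩ := exists_nat_one_div_lt (lt_of_le_of_ne hr (Ne.symm h0))
          exact absurd (hr' n) (not_le.mpr hn)
        have e1 : u z = u' z := hzX u hu u' (hLK hL').1 (fun a => sub_eq_zero.mp (abs_eq_zero.mp
          (hlim _ (abs_nonneg _) fun n => (hcon (a, n)).1)))
        have e2 : v z = v' z := hzX v hv v' (hLK hL').2 (fun a => sub_eq_zero.mp (abs_eq_zero.mp
          (hlim _ (abs_nonneg _) fun n => (hcon (a, n)).2)))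
        have h3 : ε / 2 ≤ |u z - v z| := huv
        have h4 : |u' z - v' z| ≤ ε / 3 := hz2 _ hL'
        rw [e1, e2] at h3
        linarith)
    refine ⟨(t.image Prod.fst, t.sup Prod.snd), fun ij hij => ?_⟩
    by_contra hcon
    rw [not_lt] at hcon
    obtain ⟨w, hwL, hw⟩ := hij
    have hd : ∀ i, d i ∈ K := fun i => subset_closure ⟨i, rfl⟩
    have hmem : ((d ij.1, d ij.2), w) ∈ (((K ×ˢ K) ∩
        {w : (X → ℝ) × (X → ℝ) | ε / 2 ≤ |w.1 z - w.2 z|}) ×ˢ L) :=
      ⟨⟨⟨hd _, hd _⟩, hcon⟩, hwL⟩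
    obtain ⟨am, ham, hamw⟩ := Set.mem_iUnion₂.mp (ht hmem)
    obtain ⟨h1, h2⟩ := hw am.1 (Finset.mem_image_of_mem _ ham)
    have h3 : (am.2 : ℝ) ≤ ((t.sup Prod.snd : ℕ) : ℝ) := by
      exact_mod_cast Finset.le_sup (f := Prod.snd) ham
    have h4 : 1 / (((t.sup Prod.snd : ℕ) : ℝ) + 1) ≤ 1 / ((am.2 : ℝ) + 1) :=
      one_div_le_one_div_of_le (by positivity) (by linarith)
    rcases hamw with h | h
    · exact lt_irrefl _ (h.trans (h1.trans_le h4))
    · exact lt_irrefl _ (h.trans (h2.trans_le h4))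
  obtain ⟨n₁, hn₁⟩ := hsV ξ
  set n := max n₁ m with hn
  have hU : IsOpen {y : X | ∀ t ∈ s n, |d t.1 y - d t.2 y| < ε / 2} := by
    have : {y : X | ∀ t ∈ s n, |d t.1 y - d t.2 y| < ε / 2} =
        ⋂ t ∈ s n, {y : X | |d t.1 y - d t.2 y| < ε / 2} := by
      ext y
      simp
    rw [this]
    refine isOpen_biInter_finset fun t _ => ?_
    exact isOpen_lt (((hcont _ (subset_closure ⟨_, rfl⟩)).sub
      (hcont _ (subset_closure ⟨_, rfl⟩))).abs) continuous_const
  apply hz _ hU (fun t ht => hξ t (hn₁ n (le_max_left _ _) t ht))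
  have : {i | i ∈ {c | ∃ h : c ∈ Γ, n₀ ⟨c, h⟩ ≤ m} ∧
      x i ∈ {y : X | ∀ t ∈ s n, |d t.1 y - d t.2 y| < ε / 2}} = ∅ := by
    ext c
    simp only [Set.mem_ofPred_eq, Set.mem_empty_iff_false, iff_false, not_and]
    rintro ⟨hc, hcm⟩ h2
    obtain ⟨t, ht, htN⟩ := hn₀ ⟨c, hc⟩ n (hcm.trans (le_max_right _ _))
    have h3 : 2 * ε / 3 < |d t.1 (x c) - d t.2 (x c)| := htN
    have h4 := h2 t ht
    linarith
  rw [this]
  exact Set.countable_empty

end Pool.Agent.Helper49.Gr
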