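import Mathlib
import Pool.Agent.Helper49.Gr.Defs
import Pool.Agent.Helper49.Gr.Sep2

/-!
# Under `MA_{ℵ₁}` all `k`-spaces and all countably tight spaces with `l*(X) = ω` are Grothendieck
-/

set_option autoImplicit false

open Cardinal Ordinal Set Topology Filter

namespace Pool.Agent.Helper49.Gr

lemma mem_closure_pi_iff {X : Type} {B : Set (X → ℝ)} {f : X → ℝ} :
    f ∈ closure B ↔ ∀ (F : Finset X) (ε : ℝ), 0 < ε → ∃ b ∈ B, ∀ x ∈ F, |b x - f x| < ε := by
  constructor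
  · intro hf F ε hε
    have hO : IsOpen {g : X → ℝ | ∀ x ∈ F, |g x - f x| < ε} := by
      have : {g : X → ℝ | ∀ x ∈ F, |g x - f x| < ε} = ⋂ x ∈ F, {g | |g x - f x| < ε} := by
        ext g
        simp
      rw [this]
      exact isOpen_biInter_finset fun x _ =>
        isOpen_lt (((continuous_apply x).sub continuous_const).abs) continuous_const
    obtain ⟨b, hb, hbB⟩ := mem_closure_iff.mp hf _ hO (fun x _ => by
      rw [_root_.sub_self, abs_zero]
      exact hε)
    exact ⟨b, hbB, hb⟩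
  · intro h
    rw [mem_closure_iff_nhds]
    intro U hU
    rw [nhds_pi, Filter.mem_pi'] at hU
    obtain ⟨I, t, ht, hIt⟩ := hU
    have h1 : ∀ x, ∃ ε : ℝ, 0 < ε ∧ Metric.ball (f x) ε ⊆ t x := fun x =>
      Metric.mem_nhds_iff.mp (ht x)
    choose ε hε hεt using h1
    obtain ⟨δ, hδ, hδε⟩ : ∃ δ : ℝ, 0 < δ ∧ ∀ x ∈ I, δ ≤ ε x := by
      by_cases hI : I.Nonempty
      · obtain ⟨x₀, hx₀, hmin⟩ := I.exists_min_image ε hI
        exact ⟨ε x₀, hε x₀, hmin⟩
      · rw [Finset.not_nonempty_iff_eq_empty] at hI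
        subst hI
        exact ⟨1, one_pos, fun x hx => absurd hx (Finset.notMem_empty x)⟩
    obtain ⟨b, hbB, hb⟩ := h I δ hδ
    refine ⟨b, hIt fun x hx => hεt x ?_, hbB⟩
    rw [Metric.mem_ball, Real.dist_eq]
    exact (hb x hx).trans_le (hδε x hx)

/-- Cluster points of sequences. -/
lemma exists_cluster {X : Type} {S A : Set (X → ℝ)} (hAS : A ⊆ S)
    (hA : ∀ B ⊆ A, B.Infinite → ∃ y ∈ S, AccPt y (𝓟 B)) (a : ℕ → X → ℝ) (ha : ∀ n, a n ∈ A) :
    ∃ y ∈ S, ∀ U, IsOpen U → y ∈ U → ∀ N, ∃ n, N ≤ n ∧ a n ∈ U := by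
  classical
  by_cases hfin : (Set.range a).Finite
  · have : ∃ y, (a ⁻¹' {y}).Infinite := by
      by_contra hcon
      push Not at hcon
      have h1 : (⋃ y ∈ Set.range a, a ⁻¹' {y}).Finite := hfin.biUnion fun y _ => hcon y
      have h2 : (⋃ y ∈ Set.range a, a ⁻¹' {y}) = Set.univ := by
        ext n
        simp
      rw [h2] at h1
      exact Set.infinite_univ h1
    obtain ⟨y, hy⟩ := this
    obtain ⟨n₀, hn₀⟩ := hy.nonempty
    refine ⟨y, ?_, fun U _ hyU N => ?_⟩
    · have : a n₀ = y := hn₀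
      rw [← this]
      exact hAS (ha n₀)
    · obtain ⟨n, hn, hNn⟩ := hy.exists_gt N
      have : a n = y := hn
      exact ⟨n, hNn.le, this ▸ hyU⟩
  · obtain ⟨y, hyS, hy⟩ := hA (Set.range a) (by rintro _ ⟨n, rfl⟩; exact ha n) hfin
    refine ⟨y, hyS, fun U hU hyU N => ?_⟩
    rw [accPt_iff_frequently] at hy
    have hF : ((fun n => a n) '' (Set.Iio N) \ {y}).Finite := ((Set.finite_Iio N).image _).sdiff
    have hO : IsOpen (U ∩ ((fun n => a n) '' (Set.Iio N) \ {y})ᶜ) :=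
      hU.inter hF.isClosed.isOpen_compl
    have hmem : y ∈ U ∩ ((fun n => a n) '' (Set.Iio N) \ {y})ᶜ := ⟨hyU, fun h => h.2 rfl⟩
    obtain ⟨z, ⟨hzne, n, hn⟩, hzU, hz⟩ := (hy.and_eventually (hO.mem_nhds hmem)).exists
    refine ⟨n, ?_, hn ▸ hzU⟩
    by_contra hlt
    rw [not_le] at hlt
    exact hz ⟨⟨n, hlt, hn⟩, hzne⟩

/-- Evaluation at a point of a cluster point of a sequence which converges at the point. -/
lemma cluster_eval {X : Type} {a : ℕ → X → ℝ} {y : X → ℝ}
    (hy : ∀ U, IsOpen U → y ∈ U → ∀ N, ∃ n, N ≤ n ∧ a n ∈ U) {x : X} {r : ℝ} {N₀ : ℕ}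
    (h : ∀ n, N₀ ≤ n → |a n x - r| < 1 / ((n : ℝ) + 1)) : y x = r := by
  by_contra hne
  obtain ⟨k, hk⟩ := exists_nat_one_div_lt (half_pos (abs_pos.mpr (sub_ne_zero.mpr hne)))
  have hO : IsOpen {g : X → ℝ | |g x - y x| < |y x - r| / 2} :=
    isOpen_lt (((continuous_apply x).sub continuous_const).abs) continuous_const
  obtain ⟨n, hn, hnU⟩ := hy _ hO (by
    show |y x - y x| < |y x - r| / 2
    rw [_root_.sub_self, abs_zero]
    exact half_pos (abs_pos.mpr (sub_ne_zero.mpr hne))) (max N₀ k)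
  have h1 := h n ((le_max_left _ _).trans hn)
  have h2 : |a n x - y x| < |y x - r| / 2 := hnU
  have h3 : 1 / ((n : ℝ) + 1) ≤ 1 / ((k : ℝ) + 1) := by
    apply one_div_le_one_div_of_le (by positivity)
    have : (k : ℝ) ≤ n := by exact_mod_cast (le_max_right _ _).trans hn
    linarith
  have h4 : |y x - r| ≤ |y x - a n x| + |a n x - r| := abs_sub_le _ _ _
  rw [abs_sub_comm (y x) (a n x)] at h4
  linarith

/-- Sequences converging on a countable set. -/
lemma exists_seq {X : Type} {A : Set (X → ℝ)} {f : X → ℝ} (hf : f ∈ closure A) {T : Set X}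
    (hT : T.Countable) : ∃ a : ℕ → X → ℝ, (∀ n, a n ∈ A) ∧
      ∀ x ∈ T, ∃ N₀ : ℕ, ∀ n, N₀ ≤ n → |a n x - f x| < 1 / ((n : ℝ) + 1) := by
  classical
  rcases T.eq_empty_or_nonempty with rfl | hne
  · obtain ⟨b, hb, _⟩ := mem_closure_pi_iff.mp hf ∅ 1 one_pos
    exact ⟨fun _ => b, fun _ => hb, fun x hx => absurd hx (Set.notMem_empty x)⟩
  · obtain ⟨t, ht⟩ := hT.exists_eq_range hne
    choose a haA ha using fun n : ℕ => mem_closure_pi_iff.mp hf ((Finset.range (n + 1)).image t)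
      (1 / ((n : ℝ) + 1)) (by positivity)
    refine ⟨a, haA, fun x hx => ?_⟩
    rw [ht] at hx
    obtain ⟨i, rfl⟩ := hx
    exact ⟨i, fun n hn => ha n _ (Finset.mem_image_of_mem _
      (Finset.mem_range.mpr (Nat.lt_succ_of_le hn)))⟩

/-- Agreement on countable sets with members of `S`. -/
lemma exists_agree {X : Type} {S A : Set (X → ℝ)} (hAS : A ⊆ S)
    (hA : ∀ B ⊆ A, B.Infinite → ∃ y ∈ S, AccPt y (𝓟 B)) {f : X → ℝ} {B : Set (X → ℝ)}
    (hBA : B ⊆ A) (hf : f ∈ closure B) {T : Set X} (hT : T.Countable) :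
    ∃ y ∈ S, y ∈ closure B ∧ ∀ x ∈ T, y x = f x := by
  obtain ⟨a, haB, ha⟩ := exists_seq hf hT
  obtain ⟨y, hyS, hy⟩ := exists_cluster hAS hA a fun n => hBA (haB n)
  refine ⟨y, hyS, ?_, fun x hx => ?_⟩
  · rw [mem_closure_iff]
    intro U hU hyU
    obtain ⟨n, _, hn⟩ := hy U hU hyU 0
    exact ⟨a n, hn, haB n⟩
  · obtain ⟨N₀, h⟩ := ha x hx
    exact cluster_eval hy h

/-- The closure of `A` is compact. -/
lemma isCompact_closure {X : Type} {S A : Set (X → ℝ)} (hAS : A ⊆ S)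
    (hA : ∀ B ⊆ A, B.Infinite → ∃ y ∈ S, AccPt y (𝓟 B)) : IsCompact (closure A) := by
  have hbdd : ∀ x, ∃ M : ℝ, ∀ a ∈ A, |a x| ≤ M := by
    intro x
    by_contra hcon
    push Not at hcon
    choose a haA ha using fun n : ℕ => hcon n
    obtain ⟨y, _, hy⟩ := exists_cluster hAS hA a haA
    obtain ⟨N, hN⟩ := exists_nat_gt (|y x| + 1)
    obtain ⟨n, hn, hnU⟩ := hy {g | |g x| < |y x| + 1}
      (isOpen_lt (continuous_apply x).abs continuous_const) (by
        show |y x| < |y x| + 1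
        linarith) N
    have h1 : |a n x| < |y x| + 1 := hnU
    have h2 := ha n
    have h3 : (N : ℝ) ≤ n := by exact_mod_cast hn
    linarith
  choose M hM using hbdd
  have hcomp : IsCompact (Set.pi Set.univ fun x : X => Set.Icc (-M x) (M x)) :=
    isCompact_univ_pi fun x => isCompact_Icc
  refine hcomp.of_isClosed_subset isClosed_closure (closure_minimal ?_ hcomp.isClosed)
  intro a ha x _
  exact abs_le.mp (hM x a ha)

/-- Countably tight case. -/
lemma continuous_of_tight {X : Type} [TopologicalSpace X] (hX : CountablyTight X)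
    {S A : Set (X → ℝ)} (hS : S ⊆ {f : X → ℝ | Continuous f}) (hAS : A ⊆ S)
    (hA : ∀ B ⊆ A, B.Infinite → ∃ y ∈ S, AccPt y (𝓟 B)) {f : X → ℝ} (hf : f ∈ closure A) :
    Continuous f := by
  rw [continuous_iff_isClosed]
  intro C hC
  rw [← closure_subset_iff_isClosed]
  intro x hx
  obtain ⟨t, ht, htc, hxt⟩ := hX _ x hx
  obtain ⟨y, hyS, -, hy⟩ := exists_agree hAS hA (Set.Subset.refl A) hf (htc.insert x)
  have hyc : Continuous y := hS hyS
  have h1 : t ⊆ y ⁻¹' C := by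
    intro z hz
    have : y z = f z := hy z (Set.mem_insert_of_mem _ hz)
    show y z ∈ C
    rw [this]
    exact ht hz
  have h2 : x ∈ y ⁻¹' C := closure_minimal h1 (hC.preimage hyc) hxt
  show f x ∈ C
  rw [← hy x (Set.mem_insert _ _)]
  exact h2

/-- `k`-space case: Grothendieck's double limit argument. -/
lemma continuous_of_kSpace {X : Type} [TopologicalSpace X] [T2Space X] (hX : KSpace X)
    {S A : Set (X → ℝ)} (hS : S ⊆ {f : X → ℝ | Continuous f}) (hAS : A ⊆ S)
    (hA : ∀ B ⊆ A, B.Infinite → ∃ y ∈ S, AccPt y (𝓟 B)) {f : X → ℝ} (hf : f ∈ closure A) :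
    Continuous f := by
  classical
  rw [continuous_iff_isClosed]
  intro C hC
  apply hX
  intro K hK
  rw [Set.inter_comm]
  refine ContinuousOn.preimage_isClosed_of_isClosed ?_ hK.isClosed hC
  intro x₀ hx₀
  by_contra hcon
  -- a gap
  obtain ⟨ε, hε, hgap⟩ : ∃ ε : ℝ, 0 < ε ∧ ∀ U, IsOpen U → x₀ ∈ U →
      ∃ x ∈ U, x ∈ K ∧ ε ≤ |f x - f x₀| := by
    by_contra hc
    push Not at hc
    apply hcon
    rw [ContinuousWithinAt, Metric.tendsto_nhds]
    intro ε hε
    obtain ⟨U, hU, hxU, h⟩ := hc ε hε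
    filter_upwards [mem_nhdsWithin_of_mem_nhds (hU.mem_nhds hxU), self_mem_nhdsWithin] with x h1 h2
    rw [Real.dist_eq]
    exact h x h1 h2
  -- the two sequences, as a sequence of pairs
  obtain ⟨w, hw⟩ : ∃ w : ℕ → (X → ℝ) × X, ∀ n, (w n).1 ∈ A ∧ (w n).2 ∈ K ∧
      |(w n).1 x₀ - f x₀| < 1 / ((n : ℝ) + 1) ∧ ε ≤ |f (w n).2 - f x₀| ∧
      (∀ i < n, |(w n).1 (w i).2 - f (w i).2| < 1 / ((n : ℝ) + 1)) ∧
      ∀ i ≤ n, |(w i).1 (w n).2 - (w i).1 x₀| < 1 / ((n : ℝ) + 1) := by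
    have hstep : ∀ (n : ℕ) (v : (i : ℕ) → i < n → (X → ℝ) × X), ∃ b : (X → ℝ) × X,
        (∀ i h, (v i h).1 ∈ A) →
        (b.1 ∈ A ∧ b.2 ∈ K ∧
        |b.1 x₀ - f x₀| < 1 / ((n : ℝ) + 1) ∧ ε ≤ |f b.2 - f x₀| ∧
        (∀ i (h : i < n), |b.1 (v i h).2 - f (v i h).2| < 1 / ((n : ℝ) + 1)) ∧
        (∀ i (h : i < n), |(v i h).1 b.2 - (v i h).1 x₀| < 1 / ((n : ℝ) + 1)) ∧
        |b.1 b.2 - b.1 x₀| < 1 / ((n : ℝ) + 1)) := by
      intro n v
      by_cases hv : ∀ i h, (v i h).1 ∈ A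
      swap
      · exact ⟨(f, x₀), fun h => absurd h hv⟩
      have hpos : (0 : ℝ) < 1 / ((n : ℝ) + 1) := by positivity
      obtain ⟨a, haA, ha⟩ := mem_closure_pi_iff.mp hf
        (insert x₀ (Finset.univ.image fun i : Fin n => (v i i.2).2)) (1 / ((n : ℝ) + 1)) hpos
      have hcA : ∀ g ∈ A, Continuous g := fun g hg => hS (hAS hg)
      have hO : IsOpen ({x | |a x - a x₀| < 1 / ((n : ℝ) + 1)} ∩
          ⋂ i : Fin n, {x | |(v i i.2).1 x - (v i i.2).1 x₀| < 1 / ((n : ℝ) + 1)}) := by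
        refine (isOpen_lt ((hcA a haA).sub continuous_const).abs continuous_const).inter ?_
        refine isOpen_iInter_of_finite fun i => ?_
        exact isOpen_lt ((hcA _ (hv _ _)).sub continuous_const).abs continuous_const
      obtain ⟨x, ⟨hx1, hx2⟩, hxK, hxε⟩ := hgap _ hO (by
        refine ⟨?_, Set.mem_iInter.mpr fun i => ?_⟩
        · show |a x₀ - a x₀| < _
          rw [_root_.sub_self, abs_zero]
          exact hpos
        · show |(v i i.2).1 x₀ - (v i i.2).1 x₀| < _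
          rw [_root_.sub_self, abs_zero]
          exact hpos)
      refine ⟨(a, x), fun _ => ⟨haA, hxK, ha x₀ (Finset.mem_insert_self _ _), hxε, ?_, ?_, hx1⟩⟩
      · intro i h
        exact ha _ (Finset.mem_insert_of_mem (Finset.mem_image.mpr ⟨⟨i, h⟩, Finset.mem_univ _, rfl⟩))
      · intro i h
        exact Set.mem_iInter.mp hx2 ⟨i, h⟩
    choose F hF using hstep
    let w : ℕ → (X → ℝ) × X := Nat.lt_wfRel.wf.fix (fun n v => F n v)
    have hwn : ∀ n, w n = F n (fun i _ => w i) := fun n => WellFounded.fix_eq _ _ n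
    have hall : ∀ n, (w n).1 ∈ A := by
      intro n
      induction n using Nat.strong_induction_on with
      | _ n ih =>
        rw [hwn n]
        exact (hF n _ (fun i h => ih i h)).1
    refine ⟨w, fun n => ?_⟩
    have := hF n (fun i _ => w i) (fun i _ => hall i)
    rw [← hwn n] at this
    obtain ⟨h1, h2, h3, h4, h5, h6, h7⟩ := this
    refine ⟨h1, h2, h3, h4, h5, fun i hi => ?_⟩
    rcases hi.lt_or_eq with h | rfl
    · exact h6 i h
    · exact h7
  obtain ⟨y, hyS, hy⟩ := exists_cluster hAS hA (fun n => (w n).1) fun n => (hw n).1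
  have hyc : Continuous y := hS hyS
  obtain ⟨z, hzK, hz⟩ := hK.exists_mapClusterPt (f := (atTop : Filter ℕ)) (u := fun n => (w n).2)
    (by
      rw [Filter.le_principal_iff, Filter.mem_map]
      exact Filter.univ_mem' fun n => (hw n).2.1)
  have hzfreq : ∀ U, IsOpen U → z ∈ U → ∀ N, ∃ n, N ≤ n ∧ (w n).2 ∈ U := by
    intro U hU hzU N
    have := (mapClusterPt_iff_frequently.mp hz U (hU.mem_nhds hzU))
    obtain ⟨n, hn, h⟩ := (this.and_eventually (eventually_ge_atTop N)).exists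
    exact ⟨n, h, hn⟩
  have e1 : ∀ i, (w i).1 z = (w i).1 x₀ := by
    intro i
    have hci : Continuous (w i).1 := hS (hAS (hw i).1)
    by_contra hne
    have hpos := half_pos (abs_pos.mpr (sub_ne_zero.mpr hne))
    obtain ⟨k, hk⟩ := exists_nat_one_div_lt hpos
    obtain ⟨n, hn, hnU⟩ := hzfreq {x | |(w i).1 x - (w i).1 z| < |(w i).1 z - (w i).1 x₀| / 2}
      (isOpen_lt (hci.sub continuous_const).abs continuous_const) (by
        show |(w i).1 z - (w i).1 z| < _
        rw [_root_.sub_self, abs_zero]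
        exact hpos) (max i k)
    have h1 := (hw n).2.2.2.2.2 i ((le_max_left _ _).trans hn)
    have h2 : |(w i).1 (w n).2 - (w i).1 z| < |(w i).1 z - (w i).1 x₀| / 2 := hnU
    have h3 : 1 / ((n : ℝ) + 1) ≤ 1 / ((k : ℝ) + 1) := by
      apply one_div_le_one_div_of_le (by positivity)
      have : (k : ℝ) ≤ n := by exact_mod_cast (le_max_right _ _).trans hn
      linarith
    have h4 : |(w i).1 z - (w i).1 x₀| ≤ |(w i).1 z - (w i).1 (w n).2| +
      |(w i).1 (w n).2 - (w i).1 x₀| := abs_sub_le _ _ _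
    rw [abs_sub_comm ((w i).1 z) ((w i).1 (w n).2)] at h4
    linarith
  have e2 : y z = f x₀ := cluster_eval hy (N₀ := 0) fun n _ => by
    rw [e1 n]
    exact (hw n).2.2.1
  have e3 : ∀ i, y (w i).2 = f (w i).2 := fun i => cluster_eval hy (N₀ := i + 1) fun n hn =>
    (hw n).2.2.2.2.1 i hn
  obtain ⟨n, _, hn⟩ := hzfreq {x | |y x - y z| < ε}
    (isOpen_lt (hyc.sub continuous_const).abs continuous_const) (by
      show |y z - y z| < ε
      rw [_root_.sub_self, abs_zero]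
      exact hε) 0
  have h1 : |y (w n).2 - y z| < ε := hn
  rw [e3, e2] at h1
  exact absurd (hw n).2.2.2.1 (not_le.mpr h1)

/-- Countable tightness of `C_p(X)` when all finite powers of `X` are Lindelöf. -/
lemma exists_countable {X : Type} [TopologicalSpace X] (hL : LindelofPowers X)
    {A : Set (X → ℝ)} (hAc : ∀ a ∈ A, Continuous a) {f : X → ℝ} (hfc : Continuous f)
    (hf : f ∈ closure A) : ∃ B ⊆ A, B.Countable ∧ f ∈ closure B := by
  classical
  have key : ∀ nm : ℕ × ℕ, ∃ B ⊆ A, B.Countable ∧ ∀ x : Fin nm.1 → X, ∃ b ∈ B, ∀ i,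
      |b (x i) - f (x i)| < 1 / ((nm.2 : ℝ) + 1) := by
    rintro ⟨n, m⟩
    have hpos : (0 : ℝ) < 1 / ((m : ℝ) + 1) := by positivity
    choose a haA ha using fun x : Fin n → X => mem_closure_pi_iff.mp hf (Finset.univ.image x)
      (1 / ((m : ℝ) + 1)) hpos
    have hO : ∀ x, IsOpen {y : Fin n → X | ∀ i, |a x (y i) - f (y i)| < 1 / ((m : ℝ) + 1)} := by
      intro x
      have : {y : Fin n → X | ∀ i, |a x (y i) - f (y i)| < 1 / ((m : ℝ) + 1)} =
          ⋂ i, {y : Fin n → X | |a x (y i) - f (y i)| < 1 / ((m : ℝ) + 1)} := by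
        ext y
        simp
      rw [this]
      refine isOpen_iInter_of_finite fun i => ?_
      exact isOpen_lt (((hAc _ (haA x)).comp (continuous_apply i)).sub
        (hfc.comp (continuous_apply i))).abs continuous_const
    have := hL n
    obtain ⟨t, htc, -, ht⟩ := isLindelof_univ.elim_nhds_subcover
      (fun x : Fin n → X => {y : Fin n → X | ∀ i, |a x (y i) - f (y i)| < 1 / ((m : ℝ) + 1)})
      (fun x _ => (hO x).mem_nhds fun i => ha x (x i)
        (Finset.mem_image_of_mem _ (Finset.mem_univ i)))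
    refine ⟨a '' t, ?_, htc.image a, fun x => ?_⟩
    · rintro _ ⟨x, _, rfl⟩
      exact haA x
    · obtain ⟨x', hx', hxx⟩ := Set.mem_iUnion₂.mp (ht (Set.mem_univ x))
      exact ⟨a x', ⟨x', hx', rfl⟩, hxx⟩
  choose B hBA hBc hB using key
  refine ⟨⋃ nm, B nm, Set.iUnion_subset hBA, Set.countable_iUnion hBc, ?_⟩
  rw [mem_closure_pi_iff]
  intro F ε hε
  obtain ⟨m, hm⟩ := exists_nat_one_div_lt hε
  obtain ⟨b, hb, h⟩ := hB (F.card, m) (fun i => (F.equivFin.symm i : X))
  refine ⟨b, Set.mem_iUnion.mpr ⟨_, hb⟩, fun x hx => ?_⟩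
  have := h (F.equivFin ⟨x, hx⟩)
  simp only [Equiv.symm_apply_apply] at this
  exact this.trans hm

/-- **Positive direction.** -/
theorem ma_grothendieck (hMA : MartinAxiomAlephOne) {X : Type} [TopologicalSpace X] [T2Space X]
    (hL : LindelofPowers X) (hX : KSpace X ∨ CountablyTight X) : Grothendieck X := by
  intro S A hS hAS hA
  have hc : ∀ f ∈ closure A, Continuous f := by
    intro f hf
    rcases hX with hX | hX
    · exact continuous_of_kSpace hX hS hAS hA hf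
    · exact continuous_of_tight hX hS hAS hA hf
  have hK := isCompact_closure hAS hA
  have hsub : closure A ⊆ S := by
    intro f hf
    obtain ⟨B, hBA, hBc, hfB⟩ := exists_countable hL (fun a ha => hS (hAS ha)) (hc f hf) hf
    have hBne : B.Nonempty := by
      obtain ⟨b, hb, _⟩ := mem_closure_pi_iff.mp hfB ∅ 1 one_pos
      exact ⟨b, hb⟩
    obtain ⟨d, hd⟩ := hBc.exists_eq_range hBne
    have hBcl : closure (Set.range d) ⊆ closure A := by
      rw [← hd]
      exact closure_mono hBA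
    obtain ⟨C, hC, hsep⟩ := separates hMA hL d (hK.of_isClosed_subset isClosed_closure hBcl)
      fun u hu => hc u (hBcl hu)
    obtain ⟨y, hyS, hyB, hy⟩ := exists_agree hAS hA hBA hfB hC
    rw [hd] at hyB hfB
    rw [← hsep y hyB f hfB hy]
    exact hyS
  rw [Set.inter_eq_left.mpr hsub]
  exact hK

end Pool.Agent.Helper49.Gr
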